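import Pool.Agent.Lib.DR.Pub.Pub
import Pool.Agent.Lib.DM.Defs

/-!
# MP_d0239a_nt: the joint public form with `ThmDM` (`p = 3` inert)

`d` is squarefree, `K = ℚ(√-d)`, `ℤ + ℤ ω₂` is the ring of integers of `K`; `p = 2` and all `d`, or `p = 3` is
unramified in `K` (`3` does not divide `d`).
-/

set_option autoImplicit false

noncomputable section

namespace Pool.Agent.MuP

open Pool.Agent.DN (SqN Ine OO Dk wC)

/-- The number `ω₂`, `d` equal to `3` modulo `4`. -/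
theorem wC_one (d : ℕ) (h4 : d % 4 = 3) (z : ℂ) (hz : z = (1 + √(d : ℝ) * Complex.I) / 2) :
    z = wC ((d + 1) / 4) 1 := by
  have hDk : Dk ((d + 1) / 4) 1 = d := by
    unfold Dk
    omega
  rw [hz]
  unfold wC
  rw [hDk]
  apply Complex.ext
  · simp
  · simp

/-- All `d` and one prime number `p`: the theorem for the subfields of `Wf n t` gives the public form. -/
theorem weberFd_ofW (p : ℕ) [Fact p.Prime] (l1 : DN.S_L1) (l2 : DN.S_L2) (b1 : DN.S_B1)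
    (r1 : DS.S_R1) (d : ℕ) (hd : Squarefree d)
    (h : ∀ (n t : ℕ) [SqN n t], (t = 1 ∧ n = (d + 1) / 4 ∧ d % 4 = 3 ∨ t = 0 ∧ n = d ∧ d % 4 ≠ 3) →
      ∀ F : IntermediateField ℚ (AlgebraicClosure ℚ), FiniteDimensional ℚ F → F ≤ DN.Wf n t →
        MuZ.XFinGen p (MuZ.cyc p F))
    (Λ : PeriodPair) (h1 : Λ.ω₁ = 1)
    (h2 : Λ.ω₂ = if d % 4 = 3 then (1 + √(d : ℝ) * Complex.I) / 2 else √(d : ℝ) * Complex.I)
    (ι : Omega →+* ℂ) (F F₀ L : Fd) (hL : IsNF L) (h0 : F₀ ≤ WeberFd ι Λ) (h0L : F₀ ≤ L)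
    (hFL : F ≤ L) (hGal : GalOver F₀ L) (a : ℕ) (hdeg : deg L = p ^ a * deg F₀) :
    XFinGen p (cyc p F) := by
  by_cases h4 : d % 4 = 3
  · rw [if_pos h4] at h2
    have hi : SqN ((d + 1) / 4) 1 := ⟨Or.inl ⟨rfl, by omega, by
      have e : 4 * ((d + 1) / 4) - 1 = d := by omega
      rw [e]
      exact hd⟩⟩
    exact weber_ofS p l1 l2 b1 r1 ((d + 1) / 4) 1 (h ((d + 1) / 4) 1 (Or.inl ⟨rfl, rfl, h4⟩)) Λ h1
      (wC_one d h4 _ h2) ι F F₀ L hL h0 h0L hFL hGal a hdeg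
  · rw [if_neg h4] at h2
    have hi : SqN d 0 := ⟨Or.inr ⟨rfl, Nat.pos_of_ne_zero hd.ne_zero, hd, h4⟩⟩
    exact weber_ofS p l1 l2 b1 r1 d 0 (h d 0 (Or.inr ⟨rfl, rfl, h4⟩)) Λ h1
      (wC_zero d _ h2) ι F F₀ L hL h0 h0L hFL hGal a hdeg

/-- **The joint theorem, from `ThmDK`, `ThmDT`, `ThmDN`, `ThmDR` and `ThmDM`.** Let `d` be squarefree,
`K = ℚ(√-d)`, and let `p = 2`, or `p = 3` be unramified in `K`. Let `Λ = ℤ + ℤ ω₂` be the ring of integers of `K`,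
`F₀` a number field which is contained in the field generated by `ω₂`, `j(Λ)` and the values of Weber's
function at the nonzero torsion points of `ℂ/Λ`, and `L / F₀` a finite Galois extension whose degree is a
power of `p`. Then `X(F^cyc)` is finitely generated over `ℤ_p` for all subfields `F` of `L`. -/
theorem weberFd_all3 (hK : DK.ThmDK) (hT : DT.ThmDT) (hN : DN.ThmDN) (hR : DR.ThmDR)
    (hM : DM.ThmDM) (l1 : DN.S_L1) (l2 : DN.S_L2) (b1 : DN.S_B1) (r1 : DS.S_R1) (p d : ℕ)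
    (hd : Squarefree d) (hp : p = 2 ∨ p = 3 ∧ d % 3 ≠ 0) (Λ : PeriodPair) (h1 : Λ.ω₁ = 1)
    (h2 : Λ.ω₂ = if d % 4 = 3 then (1 + √(d : ℝ) * Complex.I) / 2 else √(d : ℝ) * Complex.I)
    (ι : Omega →+* ℂ) (F F₀ L : Fd) (hL : IsNF L) (h0 : F₀ ≤ WeberFd ι Λ) (h0L : F₀ ≤ L)
    (hFL : F ≤ L) (hGal : GalOver F₀ L) (a : ℕ) (hdeg : deg L = p ^ a * deg F₀) :
    XFinGen p (cyc p F) := by
  by_cases h3 : p = 3 ∧ d % 3 = 1
  · obtain ⟨rfl, h3⟩ := h3
    have : Fact (Nat.Prime 3) := ⟨Nat.prime_three⟩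
    refine weberFd_ofW 3 l1 l2 b1 r1 d hd (fun n t hi hnt => ?_) Λ h1 h2 ι F F₀ L hL h0 h0L hFL hGal a
      hdeg
    have hDk : Dk n t % 3 = 1 := by
      rcases hnt with ⟨rfl, rfl, h4⟩ | ⟨rfl, rfl, h4⟩
      · have e : Dk ((d + 1) / 4) 1 = d := by
          unfold Dk
          omega
        rw [e]
        exact h3
      · have e : Dk n 0 = 4 * n := by
          unfold Dk
          omega
        rw [e]
        omega
    have hi3 : DM.Ine3 n t :=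
      { out := hi.out
        nsp := by omega
        one := hDk }
    exact hM n t
  · exact weberFd_all2 hK hT hN hR l1 l2 b1 r1 p d hd (by omega) Λ h1 h2 ι F F₀ L hL h0 h0L hFL hGal
      a hdeg

end Pool.Agent.MuP
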